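import Pool.Agent.H29.EM.MRZ
import Pool.Agent.H69.EQ.TM
import Pool.Agent.H14.EQ.TI

/-!
Board emd_modules (MP_75a732_an), row MRV: one more entry is switched on.
-/

set_option autoImplicit false

namespace Pool.Agent.H42.EM

open scoped BigOperators ComplexConjugate ContDiff ComplexOrder ENNReal
open MeasureTheory Pool.Agent.H92.EQ Pool.Agent.H92.EM Pool.Agent.H29.EM

noncomputable section

variable {k : ℕ}

theorem sw_rep (r : ℕ) (i j : Fin (k + 1)) (hr : (i : ℕ) * (k + 1) + j = r)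
    (X : Fin (k + 1) → Fin (k + 1) → ℂ) (t : ℂ) :
    sw (r + 1) (rep X i j t) = rep (sw r X) i j t := by
  funext a b
  unfold sw
  rw [Pool.Agent.H69.EQ.rep_apply, Pool.Agent.H69.EQ.rep_apply]
  have key : ((a : ℕ) * (k + 1) + b = r) → (a = i ∧ b = j) := by
    intro h
    have hb := b.isLt
    have hj := j.isLt
    have e1 : ((a : ℕ) * (k + 1) + b) / (k + 1) = a := by
      rw [Nat.add_comm, Nat.add_mul_div_right _ _ (Nat.succ_pos k), Nat.div_eq_of_lt hb,
        zero_add]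
    have e2 : ((i : ℕ) * (k + 1) + j) / (k + 1) = i := by
      rw [Nat.add_comm, Nat.add_mul_div_right _ _ (Nat.succ_pos k), Nat.div_eq_of_lt hj,
        zero_add]
    have h1 : (a : ℕ) = i := by rw [← e1, ← e2, h, hr]
    have h2 : (b : ℕ) = j := by
      have h3 := h.trans hr.symm
      rw [h1] at h3
      omega
    exact ⟨Fin.ext h1, Fin.ext h2⟩
  by_cases h : a = i ∧ b = j
  · rw [if_pos h, if_pos h, if_pos]
    rw [h.1, h.2, hr]
    exact Nat.lt_succ_self r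
  · rw [if_neg h, if_neg h]
    have h1 : (a : ℕ) * (k + 1) + b ≠ r := fun h2 => h (key h2)
    by_cases h2 : (a : ℕ) * (k + 1) + b < r
    · rw [if_pos h2, if_pos (by omega)]
    · rw [if_neg h2, if_neg (by omega)]

theorem sw_entry (r : ℕ) (i j : Fin (k + 1)) (hr : (i : ℕ) * (k + 1) + j = r)
    (X : Fin (k + 1) → Fin (k + 1) → ℂ) : rep (sw r X) i j 0 = sw r X := by
  funext a b
  rw [Pool.Agent.H69.EQ.rep_apply]
  by_cases h : a = i ∧ b = j
  · rw [if_pos h, h.1, h.2]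
    unfold sw
    rw [if_neg (by omega)]
  · rw [if_neg h]

theorem sw_cont (r : ℕ) :
    Continuous (sw r : (Fin (k + 1) → Fin (k + 1) → ℂ) → Fin (k + 1) → Fin (k + 1) → ℂ) := by
  refine continuous_pi fun i => continuous_pi fun l => ?_
  unfold sw
  split_ifs <;> fun_prop

theorem rep_cont (i j : Fin (k + 1)) :
    Continuous (fun p : (Fin (k + 1) → Fin (k + 1) → ℂ) × ℂ => rep p.1 i j p.2) := by
  refine continuous_pi fun a => continuous_pi fun b => ?_
  simp only [Pool.Agent.H69.EQ.rep_apply]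
  split_ifs <;> fun_prop

/-- Fubini for one entry -/
theorem fub (i j : Fin (k + 1)) {θ : ℝ} (hb : Pool.Agent.H69.EQ.Den (bs θ))
    (f : (Fin (k + 1) → Fin (k + 1) → ℂ) → ℝ)
    (hf : Integrable (fun X : Fin (k + 1) → Fin (k + 1) → ℂ => bth θ X * f X)) :
    ∫ X : Fin (k + 1) → Fin (k + 1) → ℂ, bth θ X * f X =
      ∫ X : Fin (k + 1) → Fin (k + 1) → ℂ, bth θ X * ∫ r, bs θ r * f (rep X i j r) := by
  obtain ⟨-, hg1, hg2⟩ := hb
  obtain ⟨Ψ, hΨ⟩ : ∃ Ψ : (Fin (k + 1) → Fin (k + 1) → ℂ) × ℂ → ℝ,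
      Ψ = fun p => (bth θ p.1 * f p.1) * bs θ p.2 := ⟨_, rfl⟩
  have hΨi : Integrable Ψ := by
    rw [hΨ]; exact hf.mul_prod hg1
  have hkey : ∀ p : (Fin (k + 1) → Fin (k + 1) → ℂ) × ℂ,
      Ψ (Pool.Agent.H69.EQ.tau i j p) = bth θ p.1 * (bs θ p.2 * f (rep p.1 i j p.2)) := by
    intro p
    rw [hΨ]
    show bth θ (rep p.1 i j p.2) * f (rep p.1 i j p.2) * bs θ (p.1 i j) = _
    unfold bth
    rw [Pool.Agent.H69.EQ.w_split (fun _ _ => bs θ) i j (rep p.1 i j p.2),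
      Pool.Agent.H69.EQ.w_split (fun _ _ => bs θ) i j p.1, Pool.Agent.H69.EQ.oth_rep,
      Pool.Agent.H69.EQ.rep_apply, if_pos ⟨rfl, rfl⟩]
    ring
  have hmp := Pool.Agent.H69.EQ.tau_mp (N := k + 1) i j
  have hΦi : Integrable (fun p : (Fin (k + 1) → Fin (k + 1) → ℂ) × ℂ =>
      bth θ p.1 * (bs θ p.2 * f (rep p.1 i j p.2))) := by
    have h1 : Integrable (Ψ ∘ Pool.Agent.H69.EQ.tau i j) :=
      (hmp.integrable_comp hΨi.aestronglyMeasurable).2 hΨi
    refine h1.congr (Filter.Eventually.of_forall fun p => ?_)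
    exact hkey p
  have hΦe : ∫ p : (Fin (k + 1) → Fin (k + 1) → ℂ) × ℂ,
      bth θ p.1 * (bs θ p.2 * f (rep p.1 i j p.2)) = ∫ p, Ψ p := by
    have h2 : ∫ p, Ψ p = ∫ p, Ψ (Pool.Agent.H69.EQ.tau i j p) := by
      have h3 := integral_map (φ := Pool.Agent.H69.EQ.tau i j) (μ := volume) (f := Ψ)
        hmp.measurable.aemeasurable (by rw [hmp.map_eq]; exact hΨi.aestronglyMeasurable)
      rw [hmp.map_eq] at h3
      exact h3
    rw [h2]
    exact integral_congr_ae (Filter.Eventually.of_forall fun p => (hkey p).symm)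
  have hΨe : ∫ p, Ψ p = ∫ X : Fin (k + 1) → Fin (k + 1) → ℂ, bth θ X * f X := by
    have h4 := integral_prod_mul (μ := (volume : Measure (Fin (k + 1) → Fin (k + 1) → ℂ)))
      (ν := (volume : Measure ℂ))
      (fun X : Fin (k + 1) → Fin (k + 1) → ℂ => bth θ X * f X) (bs θ)
    rw [hg2, mul_one] at h4
    rw [hΨ]
    exact h4
  have h5 : ∀ X : Fin (k + 1) → Fin (k + 1) → ℂ,
      ∫ r : ℂ, bth θ X * (bs θ r * f (rep X i j r)) =
      bth θ X * ∫ r, bs θ r * f (rep X i j r) := fun X => integral_const_mul _ _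
  rw [← hΨe, ← hΦe]
  have h7 := integral_prod (μ := (volume : Measure (Fin (k + 1) → Fin (k + 1) → ℂ)))
    (ν := (volume : Measure ℂ)) _ hΦi
  refine (Eq.trans ?_ h7).trans ?_
  · rfl
  · exact integral_congr_ae (Filter.Eventually.of_forall fun X => h5 X)

/-- bounded measurable functions of two matrices -/
theorem pint {θ : ℝ} (hi : Integrable (bth (k := k) θ))
    {f : (Fin (k + 1) → Fin (k + 1) → ℂ) × (Fin (k + 1) → Fin (k + 1) → ℂ) → ℝ}
    (hf : Measurable f) {B : ℝ} (hB : ∀ Z, |f Z| ≤ B) :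
    Integrable (fun Z : (Fin (k + 1) → Fin (k + 1) → ℂ) × (Fin (k + 1) → Fin (k + 1) → ℂ) =>
      bth θ Z.1 * (bth θ Z.2 * f Z)) := by
  have h1 : Integrable
      (fun Z : (Fin (k + 1) → Fin (k + 1) → ℂ) × (Fin (k + 1) → Fin (k + 1) → ℂ) =>
      bth θ Z.1 * bth θ Z.2) := by
    rw [Measure.volume_eq_prod]
    exact hi.mul_prod hi
  have h2 := h1.mul_bdd (c := B) hf.aestronglyMeasurable
    (Filter.Eventually.of_forall fun Z => by rw [Real.norm_eq_abs]; exact hB Z)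
  refine h2.congr (Filter.Eventually.of_forall fun Z => ?_)
  show bth θ Z.1 * bth θ Z.2 * f Z = bth θ Z.1 * (bth θ Z.2 * f Z)
  ring

theorem exch {θ : ℝ} (hi : Integrable (bth (k := k) θ))
    (hb : Pool.Agent.H69.EQ.Den (bs θ)) (hbc : Continuous (bs θ)) (r : ℕ) (i j : Fin (k + 1))
    (hr : (i : ℕ) * (k + 1) + j = r)
    (g : (Fin (k + 1) → Fin (k + 1) → ℂ) → (Fin (k + 1) → Fin (k + 1) → ℂ) → ℝ)
    (hg : Measurable fun Z : (Fin (k + 1) → Fin (k + 1) → ℂ) ×
      (Fin (k + 1) → Fin (k + 1) → ℂ) => g Z.1 Z.2) {B : ℝ} (hB : ∀ X' Y, |g X' Y| ≤ B) :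
    (∫ X' : Fin (k + 1) → Fin (k + 1) → ℂ, ∫ X : Fin (k + 1) → Fin (k + 1) → ℂ,
      bth θ X' * (bth θ X * g X' (sw (r + 1) X))) -
      (∫ X' : Fin (k + 1) → Fin (k + 1) → ℂ, ∫ X : Fin (k + 1) → Fin (k + 1) → ℂ,
      bth θ X' * (bth θ X * g X' (sw r X))) =
    ∫ X : Fin (k + 1) → Fin (k + 1) → ℂ, bth θ X *
      ∫ X' : Fin (k + 1) → Fin (k + 1) → ℂ, bth θ X' *
        ((∫ t, bs θ t * g X' (rep (sw r X) i j t)) - g X' (sw r X)) := by
  obtain ⟨hb0, hb1, hb2⟩ := hb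
  have hBn : 0 ≤ B := (abs_nonneg _).trans (hB 0 0)
  set I : (Fin (k + 1) → Fin (k + 1) → ℂ) × (Fin (k + 1) → Fin (k + 1) → ℂ) → ℝ :=
    fun Z => ∫ t, bs θ t * g Z.1 (rep (sw r Z.2) i j t) with hI
  have hIm : Measurable I := by
    have h1 : StronglyMeasurable (Function.uncurry
        fun (Z : (Fin (k + 1) → Fin (k + 1) → ℂ) × (Fin (k + 1) → Fin (k + 1) → ℂ)) (t : ℂ) =>
        bs θ t * g Z.1 (rep (sw r Z.2) i j t)) := by
      refine Measurable.stronglyMeasurable ?_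
      refine (hbc.measurable.comp measurable_snd).mul ?_
      have h2 : Continuous fun W : ((Fin (k + 1) → Fin (k + 1) → ℂ) ×
          (Fin (k + 1) → Fin (k + 1) → ℂ)) × ℂ => (W.1.1, rep (sw r W.1.2) i j W.2) := by
        refine (continuous_fst.comp continuous_fst).prodMk ?_
        exact (rep_cont i j).comp (((sw_cont r).comp
          (continuous_snd.comp continuous_fst)).prodMk continuous_snd)
      exact hg.comp h2.measurable
    exact h1.integral_prod_right.measurable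
  have hIB : ∀ Z, |I Z| ≤ B := by
    intro Z
    rw [hI]
    simp only
    rw [← Real.norm_eq_abs]
    refine (norm_integral_le_integral_norm _).trans ?_
    have h2 : ∫ t, ‖bs θ t * g Z.1 (rep (sw r Z.2) i j t)‖ ≤ ∫ t, bs θ t * B := by
      refine integral_mono_of_nonneg (Filter.Eventually.of_forall fun x => norm_nonneg _)
        (hb1.mul_const B) (Filter.Eventually.of_forall fun x => ?_)
      show ‖bs θ x * g Z.1 (rep (sw r Z.2) i j x)‖ ≤ bs θ x * B
      rw [norm_mul, Real.norm_of_nonneg (hb0 x)]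
      exact mul_le_mul_of_nonneg_left (hB _ _) (hb0 x)
    rw [integral_mul_const, hb2, one_mul] at h2
    exact h2
  have hgr : Measurable fun Z : (Fin (k + 1) → Fin (k + 1) → ℂ) ×
      (Fin (k + 1) → Fin (k + 1) → ℂ) => g Z.1 (sw r Z.2) := by
    have h2 : Continuous fun Z : (Fin (k + 1) → Fin (k + 1) → ℂ) ×
        (Fin (k + 1) → Fin (k + 1) → ℂ) => (Z.1, sw r Z.2) :=
      continuous_fst.prodMk ((sw_cont r).comp continuous_snd)
    exact hg.comp h2.measurable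
  have e1 : ∀ X' : Fin (k + 1) → Fin (k + 1) → ℂ,
      ∫ X : Fin (k + 1) → Fin (k + 1) → ℂ, bth θ X' * (bth θ X * g X' (sw (r + 1) X)) =
      ∫ X : Fin (k + 1) → Fin (k + 1) → ℂ, bth θ X' * (bth θ X * I (X', X)) := by
    intro X'
    rw [integral_const_mul, integral_const_mul]
    congr 1
    have hm1 : Measurable fun X : Fin (k + 1) → Fin (k + 1) → ℂ => g X' (sw (r + 1) X) := by
      have h2 : Continuous fun X : Fin (k + 1) → Fin (k + 1) → ℂ => (X', sw (r + 1) X) :=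
        continuous_const.prodMk (sw_cont (r + 1))
      exact hg.comp h2.measurable
    have h1 := fub i j ⟨hb0, hb1, hb2⟩ (fun X => g X' (sw (r + 1) X))
      (hi.mul_bdd (c := B) hm1.aestronglyMeasurable
        (Filter.Eventually.of_forall fun Z => by rw [Real.norm_eq_abs]; exact hB _ _))
    rw [h1]
    refine integral_congr_ae (Filter.Eventually.of_forall fun X => ?_)
    simp only [sw_rep r i j hr, hI]
  simp only [e1]
  have hp1 := pint hi hIm hIB
  have hp2 := pint hi hgr (fun Z => hB _ _)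
  rw [Measure.volume_eq_prod] at hp1 hp2
  have h3 := integral_prod _ hp1
  have h4 := integral_prod _ hp2
  rw [← h3, ← h4, ← integral_sub hp1 hp2]
  have h5 := integral_prod_symm _ (hp1.sub hp2)
  refine Eq.trans (integral_congr_ae (Filter.Eventually.of_forall fun Z => rfl)) (h5.trans ?_)
  refine integral_congr_ae (Filter.Eventually.of_forall fun X => ?_)
  show ∫ X' : Fin (k + 1) → Fin (k + 1) → ℂ, (bth θ X' * (bth θ X * I (X', X)) -
    bth θ X' * (bth θ X * g X' (sw r X))) = _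
  simp only
  rw [← integral_const_mul]
  refine integral_congr_ae (Filter.Eventually.of_forall fun X' => ?_)
  simp only [hI]
  ring

/-- the two densities -/
theorem two_dens (hW6 : T_W6) (hA1 : T_A1) (hTB : T_TB) (hTC : T_TC) (hL1 : T_L1)
    {s q D : ℕ} (hD : 1 ≤ D) {Φ : Fin (k + 1) → MvPolynomial (Fin (k + 1)) ℂ}
    (hΦ : IsH D Φ) {w w' : (Fin (k + 1) → ℂ) → ℝ} {u : Fin q → (Fin (k + 1) → ℂ) → ℝ}
    (hw : Pot w) (hw' : Pot w') (hu : ∀ l, Pot (u l)) {SM : Form (Fin (k + 1)) (s + 1)}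
    (hSM : ProjForm SM) (Z : Fin (k + 1) → Fin (k + 1) → ℂ) (i j : Fin (k + 1)) (t1 : ℂ)
    (hdt : ∀ t, t ≠ t1 → (Matrix.of (rep Z i j t)).det ≠ 0) (t : ℂ) (ht : t ≠ t1) :
    mT (pull (Pool.Agent.H14.EQ.GP Φ Z i j) SM)
        (fun l z => (Fin.cons w u : Fin (q + 1) → (Fin (k + 1) → ℂ) → ℝ) l (tl z)) t +
      mT (pull (Pool.Agent.H14.EQ.GP Φ Z i j) SM)
        (fun l z => (Fin.cons w' u : Fin (q + 1) → (Fin (k + 1) → ℂ) → ℝ) l (tl z)) t =
    2 * mT (pull (Pool.Agent.H14.EQ.GP Φ Z i j) SM)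
        (fun l z => (Fin.cons (fun z => (1 - (1 / 2 : ℝ)) * w z + (1 / 2 : ℝ) * w' z) u :
          Fin (q + 1) → (Fin (k + 1) → ℂ) → ℝ) l (tl z)) t := by
  have hV : IsOpen ({t1}ᶜ : Set ℂ) := isOpen_compl_singleton
  have hG1 : ∀ (l : ℂ) (z : Fin (k + 1 + 1) → ℂ),
      ev (Pool.Agent.H14.EQ.GP Φ Z i j) (ct (z 0) (l • tl z)) =
        l ^ D • ev (Pool.Agent.H14.EQ.GP Φ Z i j) z := by
    intro l z
    rw [Pool.Agent.H14.EQ.ev_GP', Pool.Agent.H14.EQ.ev_GP']
    have h1 : tl (ct (z 0) (l • tl z)) = l • tl z := rfl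
    have h2 : ct (z 0) (l • tl z) 0 = z 0 := rfl
    rw [h1, h2, Pool.Agent.H14.EQ.ev_smul hΦ, Matrix.mulVec_smul]
  have hG2 : ∀ z ∈ WV (k + 1) ({t1}ᶜ : Set ℂ),
      ev (Pool.Agent.H14.EQ.GP Φ Z i j) z ≠ 0 := by
    intro z hz h0
    rw [Pool.Agent.H14.EQ.ev_GP'] at h0
    exact hz.2 (hΦ.nd _ (Matrix.eq_zero_of_mulVec_eq_zero (hdt _ hz.1) h0))
  obtain ⟨hFT, -, -⟩ :=
    hTB (k + 1) (s + 1) D {t1}ᶜ (Pool.Agent.H14.EQ.GP Φ Z i j) SM hV hD hG1 hG2 hSM
  have hLw : LH 1 w := (hL1 (k + 1) 1 1 1 1 w w).2.2.1 hw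
  have hLw' : LH 1 w' := (hL1 (k + 1) 1 1 1 1 w' w').2.2.1 hw'
  have hLu : ∀ l, LH 1 (u l) := fun l => (hL1 (k + 1) 1 1 1 1 (u l) (u l)).2.2.1 (hu l)
  have hLs := (hL1 (k + 1) 1 1 1 1 w w').1 hLw hLw'
  have hLg := (hL1 (k + 1) 1 1 (1 - (1 / 2 : ℝ)) (1 / 2 : ℝ) w w').1 hLw hLw'
  have e4 : ∀ v0 : (Fin (k + 1) → ℂ) → ℝ,
      (Fin.cons (fun z => v0 (tl z)) (fun l z => u l (tl z)) :
        Fin (q + 1) → (Fin (k + 1 + 1) → ℂ) → ℝ) =
      fun l z => (Fin.cons v0 u : Fin (q + 1) → (Fin (k + 1) → ℂ) → ℝ) l (tl z) := by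
    intro v0
    funext l z
    refine Fin.cases ?_ (fun l => ?_) l
    · rfl
    · rfl
  have a1 := Pool.Agent.H14.EQ.mT_sub (p := s + 1) (Nat.succ_pos k) hW6 hA1 hTC hV
    (pull (Pool.Agent.H14.EQ.GP Φ Z i j) SM) hFT
    (Pool.Agent.H14.EQ.lht_tl (V := {t1}ᶜ) hLs) (Pool.Agent.H14.EQ.lht_tl (V := {t1}ᶜ) hLw')
    (fun l z => u l (tl z)) (fun _ => 1) (fun l => Pool.Agent.H14.EQ.lht_tl (hLu l)) ht
  have a2 := Pool.Agent.H14.EQ.mT_sub (p := s + 1) (Nat.succ_pos k) hW6 hA1 hTC hV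
    (pull (Pool.Agent.H14.EQ.GP Φ Z i j) SM) hFT
    (Pool.Agent.H14.EQ.lht_tl (V := {t1}ᶜ) hLs) (Pool.Agent.H14.EQ.lht_tl (V := {t1}ᶜ) hLg)
    (fun l z => u l (tl z)) (fun _ => 1) (fun l => Pool.Agent.H14.EQ.lht_tl (hLu l)) ht
  have f1 : (fun y : Fin (k + 1 + 1) → ℂ => (1 : ℝ) * w (tl y) + 1 * w' (tl y) - w' (tl y)) =
      fun y => w (tl y) := by
    funext y
    ring
  have f2 : (fun y : Fin (k + 1 + 1) → ℂ => (1 : ℝ) * w (tl y) + 1 * w' (tl y) -
      ((1 - (1 / 2 : ℝ)) * w (tl y) + (1 / 2 : ℝ) * w' (tl y))) =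
      fun y => (1 - (1 / 2 : ℝ)) * w (tl y) + (1 / 2 : ℝ) * w' (tl y) := by
    funext y
    ring
  rw [f1] at a1
  rw [f2] at a2
  rw [← e4 w, ← e4 w', ← e4 (fun z => (1 - (1 / 2 : ℝ)) * w z + (1 / 2 : ℝ) * w' z)]
  linarith

/-- the estimate for one pair of matrices -/
theorem one_pt (hMRG : T_MRG) (hMRK : T_MRK) (hETI : Pool.Agent.H92.EHD.T_ETI)
    (hW6 : T_W6) (hA1 : T_A1) (hTB : T_TB) (hTC : T_TC) (hL1 : T_L1)
    {s q D : ℕ} (hk : s + 1 + q = k) (hD : 1 ≤ D)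
    {Φ : Fin (k + 1) → MvPolynomial (Fin (k + 1)) ℂ}
    (hΦ : IsH D Φ) {w w' : (Fin (k + 1) → ℂ) → ℝ} {u : Fin q → (Fin (k + 1) → ℂ) → ℝ}
    (hw : Pot w) (hw' : Pot w') (hu : ∀ l, Pot (u l)) {SM : Form (Fin (k + 1)) (s + 1)}
    (hSM : ProjForm SM) (Z : Fin (k + 1) → Fin (k + 1) → ℂ)
    (hZ : ∀ a b, ‖Z a b - (1 : Matrix (Fin (k + 1)) (Fin (k + 1)) ℂ) a b‖ ≤ th0 k)
    (i j : Fin (k + 1)) (c : ℂ) (hc : c = (1 : Matrix (Fin (k + 1)) (Fin (k + 1)) ℂ) i j) :
    ENNReal.ofReal |am (fun z => w z - w' z) Φ SM u (Matrix.of (rep Z i j c)) -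
      ∫ t, bs (th0 k) (t - c) *
        am (fun z => w z - w' z) Φ SM u (Matrix.of (rep Z i j t))| ≤
      2 * ∫⁻ t in {t : ℂ | ‖t - c‖ < th0 k},
        ENNReal.ofReal (Real.log (th0 k / ‖t - c‖)) *
        ENNReal.ofReal (mT (pull (Pool.Agent.H14.EQ.GP Φ Z i j) SM)
          (fun l z => (Fin.cons (fun z => (1 - (1 / 2 : ℝ)) * w z + (1 / 2 : ℝ) * w' z) u :
            Fin (q + 1) → (Fin (k + 1) → ℂ) → ℝ) l (tl z)) t) := by
  have hN : s + 1 + q + 1 = k + 1 := by omega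
  obtain ⟨t1, C0, ht1, hX⟩ := hMRG k Z i j hZ
  rw [← hc] at ht1
  have hth : th0 k < ‖t1 - c‖ := by
    refine lt_of_lt_of_le ?_ ht1
    unfold th0
    rw [div_lt_div_iff₀ (by positivity) (by norm_num)]
    have : (0 : ℝ) ≤ k := Nat.cast_nonneg k
    linarith
  obtain ⟨F, F', C2, hmm, hmc, hmc', hFc, hFc', hF, hF', hW, hW', hac, haW⟩ :=
    hETI (k + 1) (s + 1) q D Φ SM w w' u Z i j t1 C0 hN hD hΦ hSM hw hw' hu
      (fun t ht => (hX t ht).1) (fun t ht => (hX t ht).2) _ _ rfl rfl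
  have h1 := hMRK c t1 (th0 k) _ _ _ (th0_pos k) hth hac hmm hmc hmc' haW
  refine h1.trans (le_of_eq ?_)
  have hne : ∀ t ∈ {t : ℂ | ‖t - c‖ < th0 k}, t ≠ t1 := by
    rintro t ht rfl
    exact absurd ht (not_lt.2 hth.le)
  have hms : MeasurableSet {t : ℂ | ‖t - c‖ < th0 k} :=
    (isOpen_lt (by fun_prop) continuous_const).measurableSet
  have g1 : AEMeasurable (fun t : ℂ => ENNReal.ofReal (Real.log (th0 k / ‖t - c‖)))
      (volume.restrict {t : ℂ | ‖t - c‖ < th0 k}) :=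
    (Measurable.ennreal_ofReal (by fun_prop)).aemeasurable
  have g2 := ((hmc.mono fun t ht => hne t ht).aemeasurable (μ := volume) hms).ennreal_ofReal
  refine (lintegral_add_left' (g1.mul g2) _).symm.trans ?_
  rw [← lintegral_const_mul' _ _ (by norm_num)]
  refine setLIntegral_congr_fun hms fun t ht => ?_
  have h2 := two_dens hW6 hA1 hTB hTC hL1 hD hΦ hw hw' hu hSM Z i j t1
    (fun t ht => (hX t ht).1) t (hne t ht)
  obtain ⟨p1, p2⟩ := hmm t (hne t ht)
  show ENNReal.ofReal _ * ENNReal.ofReal _ + ENNReal.ofReal _ * ENNReal.ofReal _ =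
    2 * (ENNReal.ofReal _ * ENNReal.ofReal _)
  rw [← mul_add, ← ENNReal.ofReal_add p1 p2, h2, ENNReal.ofReal_mul (by norm_num)]
  have h3 : ENNReal.ofReal 2 = 2 := by norm_num
  rw [h3]
  ring

theorem pf_MRV (hMRT : T_MRT) (hMRG : T_MRG) (hMRK : T_MRK) (hMBU : T_MBU)
    (hETI : Pool.Agent.H92.EHD.T_ETI) (hTN : T_TN) (hD5 : T_D5) (hD8 : T_D8) (hD13 : T_D13)
    (hP5 : T_P5) (hL1 : T_L1) (hL3 : T_L3) (hL6 : T_L6) (hW6 : T_W6) (hA1 : T_A1)
    (hTB : T_TB) (hTC : T_TC) : T_MRV := by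
  intro m k s q κ hm hk
  obtain ⟨C, hC, hR⟩ := hMRT m k s q κ hm hk
  refine ⟨2 * C, by positivity, ?_⟩
  intro D Φ hD hΦ w w' u hw hw' hu S A hA hS hInK hLM hmass r hr
  have hN : s + 1 + q + 1 = k + 1 := by omega
  have hD0 : 0 < (D : ℝ) := by exact_mod_cast hD
  have hhom : Hom0 (fun z => w z - w' z) := by
    have h1 := (hL1 (k + 1) 1 1 1 (-1) w w').1 ((hL1 (k + 1) 1 1 1 1 w w).2.2.1 hw)
      ((hL1 (k + 1) 1 1 1 1 w' w').2.2.1 hw')
    have h2 : (fun z => (1 : ℝ) * w z + -1 * w' z) = fun z => w z - w' z := by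
      funext z
      ring
    rw [h2] at h1
    refine (hL1 (k + 1) 0 0 0 0 (fun z => w z - w' z) w').2.1.2 ?_
    have h3 : (1 : ℝ) * 1 + -1 * 1 = 0 := by norm_num
    rwa [h3] at h1
  obtain ⟨B, hB, hBb⟩ := (hL6 (k + 1)).1 (fun z => w z - w' z) hhom.smooth.continuousOn
    (fun r z hr hz => hhom.hom (r : ℂ) z (by exact_mod_cast hr.ne') hz)
  obtain ⟨hcont, hbd, -⟩ :=
    hTN (k + 1) (s + 1) q D Φ S (fun z => w z - w' z) u B hN hD hΦ hS hhom hu hBb
  have hms0 : 0 ≤ mass q S := (hP5 (k + 1) (s + 1) q D S hN hS).2.2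
  obtain ⟨hbc, hb0, hbi, hb1, hbs⟩ := bth_facts hMBU k (th0 k) (th0_pos k)
  obtain ⟨Cb, hCb, hbump, -⟩ := hMBU
  obtain ⟨hbsm, hbs0, -, hbsz, hbsi, hbs1⟩ := hbump (th0 k) (th0_pos k)
  -- the entry
  have hi : r / (k + 1) < k + 1 := Nat.div_lt_of_lt_mul hr
  have hj : r % (k + 1) < k + 1 := Nat.mod_lt _ (Nat.succ_pos k)
  obtain ⟨i, hii⟩ : ∃ i : Fin (k + 1), (i : ℕ) = r / (k + 1) := ⟨⟨_, hi⟩, rfl⟩
  obtain ⟨j, hjj⟩ : ∃ j : Fin (k + 1), (j : ℕ) = r % (k + 1) := ⟨⟨_, hj⟩, rfl⟩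
  have hij : (i : ℕ) * (k + 1) + j = r := by
    rw [hii, hjj, Nat.mul_comm]
    exact Nat.div_add_mod r (k + 1)
  -- the function on matrices, zero on singular matrices
  set U : Set (Fin (k + 1) → Fin (k + 1) → ℂ) := {Y | (Matrix.of Y).det ≠ 0} with hU
  have hUo : IsOpen U := by
    have h1 : Continuous fun X : Fin (k + 1) → Fin (k + 1) → ℂ => (Matrix.of X).det :=
      Continuous.matrix_det continuous_id
    exact isOpen_ne_fun h1 continuous_const
  set G : (Fin (k + 1) → Fin (k + 1) → ℂ) → ℝ :=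
    U.indicator (fun Y => am (fun z => w z - w' z) Φ S u (Matrix.of Y)) with hG
  have hGm : Measurable G := by
    have h1 := ContinuousOn.measurable_piecewise (s := U)
      (g := fun _ : Fin (k + 1) → Fin (k + 1) → ℂ => (0 : ℝ)) hcont continuousOn_const
      hUo.measurableSet
    have h2 : U.piecewise (fun Y => am (fun z => w z - w' z) Φ S u (Matrix.of Y))
        (fun _ => (0 : ℝ)) = G := by
      rw [hG]
      exact Set.piecewise_eq_indicator
    rwa [h2] at h1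
  set B' : ℝ := B * ((D : ℝ) ^ (s + 1) * mass q S) with hB'
  have hB'0 : 0 ≤ B' := by positivity
  have hGB : ∀ Y, |G Y| ≤ B' := by
    intro Y
    by_cases hY : Y ∈ U
    · rw [hG, Set.indicator_of_mem hY]
      exact hbd _ hY
    · rw [hG, Set.indicator_of_notMem hY, abs_zero]
      exact hB'0
  set T : (Fin (k + 1) → Fin (k + 1) → ℂ) → (Fin (k + 1) → Fin (k + 1) → ℂ) →
    (Fin (k + 1) → Fin (k + 1) → ℂ) := fun X' Y a b =>
      (mX m X' * (1 + Matrix.of Y) : Matrix (Fin (k + 1)) (Fin (k + 1)) ℂ) a b with hT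
  have hTc : Continuous fun Z : (Fin (k + 1) → Fin (k + 1) → ℂ) ×
      (Fin (k + 1) → Fin (k + 1) → ℂ) => T Z.1 Z.2 := by
    refine continuous_pi fun a => continuous_pi fun b => ?_
    rw [hT]
    simp only [Matrix.mul_apply]
    refine continuous_finsetSum _ fun l _ => Continuous.mul ?_ ?_
    · unfold mX msk
      by_cases hc : (a : ℕ) < m ∧ l ≠ a
      · simp only [if_pos hc]
        exact continuous_const
      · simp only [if_neg hc, Matrix.add_apply, Matrix.of_apply]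
        exact continuous_const.add ((continuous_apply l).comp ((continuous_apply a).comp
          continuous_fst))
    · simp only [Matrix.add_apply, Matrix.of_apply]
      exact continuous_const.add ((continuous_apply b).comp ((continuous_apply l).comp
          continuous_snd))
  have hTo : ∀ X' Y, Matrix.of (T X' Y) = mX m X' * (1 + Matrix.of Y) := fun X' Y => rfl
  have hTU : ∀ X' Y : Fin (k + 1) → Fin (k + 1) → ℂ, (∀ a b, ‖X' a b‖ < th0 k) →
      (∀ a b, ‖Y a b‖ < th0 k) → T X' Y ∈ U := by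
    intro X' Y h1 h2
    show (Matrix.of (T X' Y)).det ≠ 0
    rw [hTo, Matrix.det_mul]
    exact mul_ne_zero (near_msk m X' h1) (near_one Y h2)
  have hswn : ∀ (n : ℕ) (X : Fin (k + 1) → Fin (k + 1) → ℂ), (∀ a b, ‖X a b‖ < th0 k) →
      ∀ a b, ‖sw n X a b‖ < th0 k := by
    intro n X hX a b
    unfold sw
    split_ifs
    · exact hX a b
    · rw [norm_zero]
      exact th0_pos k
  have hrep : ∀ n : ℕ,
      (∫ X' : Fin (k + 1) → Fin (k + 1) → ℂ, ∫ X : Fin (k + 1) → Fin (k + 1) → ℂ,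
        bth (th0 k) X' * (bth (th0 k) X *
          am (fun z => w z - w' z) Φ S u (mX m X' * (1 + Matrix.of (sw n X))))) =
      ∫ X' : Fin (k + 1) → Fin (k + 1) → ℂ, ∫ X : Fin (k + 1) → Fin (k + 1) → ℂ,
        bth (th0 k) X' * (bth (th0 k) X * G (T X' (sw n X))) := by
    intro n
    refine integral_congr_ae (Filter.Eventually.of_forall fun X' => ?_)
    refine integral_congr_ae (Filter.Eventually.of_forall fun X => ?_)
    show bth (th0 k) X' * (bth (th0 k) X *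
      am (fun z => w z - w' z) Φ S u (mX m X' * (1 + Matrix.of (sw n X)))) =
      bth (th0 k) X' * (bth (th0 k) X * G (T X' (sw n X)))
    by_cases h1 : bth (th0 k) X' = 0
    · rw [h1, zero_mul, zero_mul]
    by_cases h2 : bth (th0 k) X = 0
    · rw [h2, zero_mul, zero_mul]
    have h3 := hTU X' (sw n X) (hbs _ h1) (hswn n X (hbs _ h2))
    rw [hG, Set.indicator_of_mem h3, hTo]
  rw [hrep (r + 1), hrep r]
  have hgm : Measurable fun Z : (Fin (k + 1) → Fin (k + 1) → ℂ) ×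
      (Fin (k + 1) → Fin (k + 1) → ℂ) => G (T Z.1 Z.2) := hGm.comp hTc.measurable
  have hex := exch hbi ⟨hbs0, hbsi, hbs1⟩ hbsm.continuous r i j hij (fun X' Y => G (T X' Y))
    hgm (fun X' Y => hGB _)
  rw [hex]
  -- the pointwise estimate
  have hfin : ∀ X : Fin (k + 1) → Fin (k + 1) → ℂ, bth (th0 k) X ≠ 0 →
      |∫ X' : Fin (k + 1) → Fin (k + 1) → ℂ, bth (th0 k) X' *
        ((∫ t, bs (th0 k) t * G (T X' (rep (sw r X) i j t))) - G (T X' (sw r X)))| ≤
      2 * C * (1 + A) * ((D : ℝ) ^ (s + 1) / D) := by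
    intro X hX
    set Z : Fin (k + 1) → Fin (k + 1) → ℂ := fun a b =>
      (1 : Matrix (Fin (k + 1)) (Fin (k + 1)) ℂ) a b + sw r X a b with hZ
    obtain ⟨c, hc⟩ : ∃ c : ℂ, c = (1 : Matrix (Fin (k + 1)) (Fin (k + 1)) ℂ) i j := ⟨_, rfl⟩
    have hZn : ∀ a b, ‖Z a b - (1 : Matrix (Fin (k + 1)) (Fin (k + 1)) ℂ) a b‖ ≤ th0 k := by
      intro a b
      rw [hZ]
      simp only [add_sub_cancel_left]
      exact (hswn r X (hbs _ hX) a b).le
    have hZr : ∀ t, (1 + Matrix.of (rep (sw r X) i j t) :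
        Matrix (Fin (k + 1)) (Fin (k + 1)) ℂ) = Matrix.of (rep Z i j (c + t)) := by
      intro t
      ext a b
      rw [Matrix.add_apply, Matrix.of_apply, Matrix.of_apply,
        Pool.Agent.H69.EQ.rep_apply, Pool.Agent.H69.EQ.rep_apply]
      by_cases h : a = i ∧ b = j
      · rw [if_pos h, if_pos h, hc, h.1, h.2]
      · rw [if_neg h, if_neg h]
    have hZ0 : (1 + Matrix.of (sw r X) : Matrix (Fin (k + 1)) (Fin (k + 1)) ℂ) =
        Matrix.of (rep Z i j c) := by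
      have h1 := hZr 0
      rw [sw_entry r i j hij X, add_zero] at h1
      exact h1
    set g : (Fin (k + 1) → ℂ) → ℝ := fun z => (1 - (1 / 2 : ℝ)) * w z + (1 / 2 : ℝ) * w' z
      with hg
    have hgP : Pot g := (hL3 (k + 1)).2.1 w w' (1 / 2) (by norm_num) (by norm_num) hw hw'
    have hvP : ∀ l, Pot ((Fin.cons g u : Fin (q + 1) → (Fin (k + 1) → ℂ) → ℝ) l) := by
      intro l
      refine Fin.cases ?_ (fun l => ?_) l
      · exact hgP
      · exact hu l
    have hmain := hR S A hA hS hInK hLM hmass D Φ hD hΦ Z i j hZn _ hvP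
    rw [← hc] at hmain
    have hpt : ∀ X' : Fin (k + 1) → Fin (k + 1) → ℂ, bth (th0 k) X' ≠ 0 →
        ENNReal.ofReal |(∫ t, bs (th0 k) t * G (T X' (rep (sw r X) i j t))) -
          G (T X' (sw r X))| ≤
        2 * ∫⁻ t in {t : ℂ | ‖t - c‖ < th0 k},
          ENNReal.ofReal (Real.log (th0 k / ‖t - c‖)) *
          ENNReal.ofReal (mT (pull (Pool.Agent.H14.EQ.GP Φ Z i j) (pull (lin (mX m X')) S))
            (fun l z => (Fin.cons g u : Fin (q + 1) → (Fin (k + 1) → ℂ) → ℝ) l (tl z)) t) := by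
      intro X' hX'
      have hdet : (mX m X').det ≠ 0 := near_msk m X' (hbs _ hX')
      obtain ⟨hSM, -⟩ := lin_form hD5 hD13 hP5 (p := s + 1) (q := q) (by omega) S hS _ hdet
      have h1 := one_pt hMRG hMRK hETI hW6 hA1 hTB hTC hL1 hk hD hΦ hw hw' hu hSM Z hZn i j c hc
      have e1 : G (T X' (sw r X)) =
          am (fun z => w z - w' z) Φ (pull (lin (mX m X')) S) u (Matrix.of (rep Z i j c)) := by
        have h3 := hTU X' (sw r X) (hbs _ hX') (hswn r X (hbs _ hX))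
        rw [hG, Set.indicator_of_mem h3, hTo, am_mul hD8 hD13, hZ0]
      have e2 : ∫ t, bs (th0 k) t * G (T X' (rep (sw r X) i j t)) =
          ∫ t, bs (th0 k) (t - c) * am (fun z => w z - w' z) Φ (pull (lin (mX m X')) S) u
            (Matrix.of (rep Z i j t)) := by
        have h4 := integral_sub_right_eq_self (μ := (volume : Measure ℂ)) (fun t =>
          bs (th0 k) t * am (fun z => w z - w' z) Φ (pull (lin (mX m X')) S) u
            (Matrix.of (rep Z i j (c + t)))) c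
        have h5 : ∫ t, bs (th0 k) (t - c) * am (fun z => w z - w' z) Φ
            (pull (lin (mX m X')) S) u (Matrix.of (rep Z i j (c + (t - c)))) =
            ∫ t, bs (th0 k) (t - c) * am (fun z => w z - w' z) Φ
            (pull (lin (mX m X')) S) u (Matrix.of (rep Z i j t)) := by
          refine integral_congr_ae (Filter.Eventually.of_forall fun t => ?_)
          simp only [add_sub_cancel]
        rw [← h5, h4]
        refine integral_congr_ae (Filter.Eventually.of_forall fun t => ?_)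
        show bs (th0 k) t * G (T X' (rep (sw r X) i j t)) = bs (th0 k) t * _
        by_cases ht : th0 k ≤ ‖t‖
        · rw [hbsz t ht, zero_mul, zero_mul]
        have h6 : ∀ a b, ‖rep (sw r X) i j t a b‖ < th0 k := by
          intro a b
          rw [Pool.Agent.H69.EQ.rep_apply]
          by_cases h : a = i ∧ b = j
          · rw [if_pos h]
            exact not_le.1 ht
          · rw [if_neg h]
            exact hswn r X (hbs _ hX) a b
        have h3 := hTU X' _ (hbs _ hX') h6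
        rw [hG, Set.indicator_of_mem h3, hTo, am_mul hD8 hD13, hZr]
      rw [e1, e2, abs_sub_comm]
      exact h1
    have h7 : ENNReal.ofReal |∫ X' : Fin (k + 1) → Fin (k + 1) → ℂ, bth (th0 k) X' *
        ((∫ t, bs (th0 k) t * G (T X' (rep (sw r X) i j t))) - G (T X' (sw r X)))| ≤
        ENNReal.ofReal (2 * C * (1 + A) * ((D : ℝ) ^ (s + 1) / D)) := by
      rw [← Real.enorm_eq_ofReal_abs]
      calc _ ≤ ∫⁻ X' : Fin (k + 1) → Fin (k + 1) → ℂ, ‖bth (th0 k) X' *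
            ((∫ t, bs (th0 k) t * G (T X' (rep (sw r X) i j t))) - G (T X' (sw r X)))‖ₑ :=
            enorm_integral_le_lintegral_enorm _
        _ ≤ ∫⁻ X' : Fin (k + 1) → Fin (k + 1) → ℂ, 2 * (ENNReal.ofReal (bth (th0 k) X') *
            ∫⁻ t in {t : ℂ | ‖t - c‖ < th0 k},
            ENNReal.ofReal (Real.log (th0 k / ‖t - c‖)) *
            ENNReal.ofReal (mT (pull (Pool.Agent.H14.EQ.GP Φ Z i j)
              (pull (lin (mX m X')) S)) (fun l z =>
                (Fin.cons g u : Fin (q + 1) → (Fin (k + 1) → ℂ) → ℝ) l (tl z)) t)) := by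
            refine lintegral_mono fun X' => ?_
            rw [Real.enorm_eq_ofReal_abs, abs_mul, abs_of_nonneg (hb0 X'),
              ENNReal.ofReal_mul (hb0 X')]
            by_cases h8 : bth (th0 k) X' = 0
            · rw [h8, ENNReal.ofReal_zero, zero_mul]
              exact zero_le
            · refine (mul_le_mul' le_rfl (hpt X' h8)).trans (le_of_eq ?_)
              rw [mul_left_comm]
        _ = 2 * ∫⁻ X' : Fin (k + 1) → Fin (k + 1) → ℂ, (ENNReal.ofReal (bth (th0 k) X') *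
            ∫⁻ t in {t : ℂ | ‖t - c‖ < th0 k},
            ENNReal.ofReal (Real.log (th0 k / ‖t - c‖)) *
            ENNReal.ofReal (mT (pull (Pool.Agent.H14.EQ.GP Φ Z i j)
              (pull (lin (mX m X')) S)) (fun l z =>
                (Fin.cons g u : Fin (q + 1) → (Fin (k + 1) → ℂ) → ℝ) l (tl z)) t)) :=
            lintegral_const_mul' _ _ (by norm_num)
        _ ≤ 2 * ENNReal.ofReal (C * (1 + A) * (D : ℝ) ^ s) := mul_le_mul' le_rfl hmain
        _ = _ := by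
            have h9 : ENNReal.ofReal 2 = 2 := by norm_num
            rw [← h9, ← ENNReal.ofReal_mul (by norm_num)]
            congr 1
            rw [pow_succ]
            field_simp
    exact (ENNReal.ofReal_le_ofReal_iff (by positivity)).1 h7
  -- the mean over `X`
  rw [← Real.norm_eq_abs]
  refine (norm_integral_le_integral_norm _).trans ?_
  have h2 : ∫ X : Fin (k + 1) → Fin (k + 1) → ℂ, ‖bth (th0 k) X *
      ∫ X' : Fin (k + 1) → Fin (k + 1) → ℂ, bth (th0 k) X' *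
        ((∫ t, bs (th0 k) t * G (T X' (rep (sw r X) i j t))) - G (T X' (sw r X)))‖ ≤
      ∫ X : Fin (k + 1) → Fin (k + 1) → ℂ,
        bth (th0 k) X * (2 * C * (1 + A) * ((D : ℝ) ^ (s + 1) / D)) := by
    refine integral_mono_of_nonneg (Filter.Eventually.of_forall fun x => norm_nonneg _)
      (hbi.mul_const _) (Filter.Eventually.of_forall fun X => ?_)
    show ‖_ * _‖ ≤ bth (th0 k) X * _
    rw [norm_mul, Real.norm_of_nonneg (hb0 X)]
    by_cases hX : bth (th0 k) X = 0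
    · rw [hX, zero_mul, zero_mul]
    · exact mul_le_mul_of_nonneg_left (hfin X hX) (hb0 X)
  rw [integral_mul_const, hb1, one_mul] at h2
  exact h2

end

end Pool.Agent.H42.EM
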